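import Pool.Agent.Lib.MP_688fd0_co.ASY.TB.Iface
import Pool.Agent.Lib.MP_688fd0_co.ASY.H91.Cross
import Pool.Agent.Lib.MP_688fd0_co.LP.Menger
import Pool.Agent.Lib.MP_688fd0_co.LP.ConnBasic

/-!
TB-LADEX, T part: the disjoint paths between two consecutive cuts (Menger), helper61.
-/

set_option autoImplicit false

namespace Pool.Agent.Lib.MP_688fd0_co.ASY.H61

open Classical
open Pool.Agent.Lib.MP_688fd0_co.LP (IsP IsPB Conn Cyc Symm cay Linkage menger)
open Pool.Agent.Lib.MP_688fd0_co.LIN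
open Pool.Agent.Lib.MP_688fd0_co.ASY.H91 (dist_adj cross_gen mem_sl)

universe u

/-- the vertices of the slab `[P, Q]` that are joined to height `P` inside the slab minus `S` -/
noncomputable def Lo {V : Type u} [Fintype V] (G : SimpleGraph V) (γ : ℕ → V) (w D P Q : ℕ) (S : Finset V) :
    Finset V :=
  (sl G γ w D P Q).filter (fun x => ∃ y, G.dist (γ 0) y = P ∧ Conn G ((↑(sl G γ w D P Q) : Set V) \ ↑S) y x)

section

variable {V : Type u} [Fintype V] {G : SimpleGraph V} {γ : ℕ → V} {w D P Q : ℕ} {S S' : Finset V}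

theorem mem_Lo {x : V} :
    x ∈ Lo G γ w D P Q S ↔ ∃ y, G.dist (γ 0) y = P ∧ Conn G ((↑(sl G γ w D P Q) : Set V) \ ↑S) y x := by
  rw [Lo, Finset.mem_filter]
  constructor
  · exact fun h => h.2
  · rintro ⟨y, hy, h⟩
    exact ⟨by simpa using h.right_mem.1, y, hy, h⟩

theorem Lo_sub {x : V} (h : x ∈ Lo G γ w D P Q S) : x ∈ sl G γ w D P Q := by
  rw [Lo, Finset.mem_filter] at h
  exact h.1

theorem Lo_not_mem {x : V} (h : x ∈ Lo G γ w D P Q S) : x ∉ S := by
  obtain ⟨y, _, h⟩ := mem_Lo.1 h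
  simpa using h.right_mem.2

theorem Lo_conn {x y : V} (h : x ∈ Lo G γ w D P Q S) (hxy : Conn G ((↑(sl G γ w D P Q) : Set V) \ ↑S) x y) :
    y ∈ Lo G γ w D P Q S := by
  obtain ⟨z, hz, h⟩ := mem_Lo.1 h
  exact mem_Lo.2 ⟨z, hz, h.trans hxy⟩

theorem Lo_adj {x y : V} (h : x ∈ Lo G γ w D P Q S) (hxy : G.Adj x y) (hy : y ∈ sl G γ w D P Q) (hyS : y ∉ S) :
    y ∈ Lo G γ w D P Q S :=
  Lo_conn h (Conn.adj ⟨by simpa using Lo_sub h, by simpa using Lo_not_mem h⟩ ⟨by simpa using hy, by simpa using hyS⟩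
    hxy)

theorem sl_mono {a b a' b' : ℕ} (ha : a' ≤ a) (hb : b ≤ b') : sl G γ w D a b ⊆ sl G γ w D a' b' := by
  intro x hx
  rw [mem_sl] at hx ⊢
  exact ⟨hx.1, by omega, by omega⟩

/-- (a) -/
theorem Lo_lt {a b : ℕ} (hc : G.Connected) (hS : IsCut G γ w D a b S) (hPa : P ≤ a) (hab : a ≤ b)
    {x : V} (hx : x ∈ Lo G γ w D P Q S) : G.dist (γ 0) x < b := by
  by_contra hlt
  push Not at hlt
  obtain ⟨y, hy, h⟩ := mem_Lo.1 hx
  obtain ⟨x', y', h1, h2, h3, -, -⟩ := cross_gen (fun v => G.dist (γ 0) v)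
    (fun u v huv => (dist_adj hc (γ 0) huv).2) hab h (by simp only [hy]; exact hPa) hlt
  refine hS.2 x' y' h1 h2 (h3.mono ?_)
  rintro v ⟨⟨hv1, hv2⟩, hv3⟩
  refine ⟨?_, hv2⟩
  rw [Finset.mem_coe, mem_sl] at hv1 ⊢
  exact ⟨hv1.1, hv3.1, hv3.2⟩

/-- the first part of (c) -/
theorem Lo_mono {a b a' b' : ℕ} (hc : G.Connected) (hS : IsCut G γ w D a b S) (hS' : IsCut G γ w D a' b' S')
    (hPa : P ≤ a) (hab : a ≤ b) (hba : b ≤ a') : Lo G γ w D P Q S ⊆ Lo G γ w D P Q S' := by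
  intro x hx
  obtain ⟨y, hy, h⟩ := mem_Lo.1 hx
  refine mem_Lo.2 ⟨y, hy, ?_⟩
  have hyL : y ∈ Lo G γ w D P Q S := mem_Lo.2 ⟨y, hy, Conn.refl h.left_mem⟩
  refine (h.in_comp).mono ?_
  intro z hz
  have hzL : z ∈ Lo G γ w D P Q S := Lo_conn hyL hz
  refine ⟨by simpa using Lo_sub hzL, ?_⟩
  intro hzS
  have h1 := Lo_lt hc hS hPa hab hzL
  have h2 := (mem_sl.1 (hS'.1 hzS)).2.1
  omega

/-- the separation argument for Menger's theorem -/
theorem lad_sep {a b a' b' : ℕ} (hc : G.Connected) (hS : IsCut G γ w D a b S) (hS' : IsCut G γ w D a' b' S')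
    (hPa : P ≤ a) (hab : a ≤ b) (hba : b < a') (hab' : a' ≤ b') (hbQ : b' ≤ Q)
    (hsub : S ⊆ Lo G γ w D P Q S') {X : Set V} {x y : V} (hx : G.dist (γ 0) x = a) (hy : G.dist (γ 0) y = b')
    (h : Conn G ((↑(sl G γ w D a b') : Set V) \ X) x y) :
    ∃ u ∈ S, ∃ v ∈ S', Conn G (((↑S : Set V) ∪ ↑(Lo G γ w D P Q S' \ (Lo G γ w D P Q S ∪ S)) ∪ ↑S') \ X) u v := by
  set Z : Set V := ((↑(sl G γ w D a b') : Set V) \ X) \ ↑S with hZ
  have hZbig : ∀ v ∈ Z, v ∈ sl G γ w D P Q := fun v hv => sl_mono hPa hbQ (by simpa using hv.1.1)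
  have hZL : Z ⊆ (↑(sl G γ w D P Q) : Set V) \ ↑S := fun v hv => ⟨by simpa using hZbig v hv, hv.2⟩
  have hyS : y ∉ S := by
    intro hyS
    have := (mem_sl.1 (hS.1 hyS)).2.2
    omega
  have hyZ : y ∈ Z := ⟨h.right_mem, by simpa using hyS⟩
  have hyL : y ∉ Lo G γ w D P Q S := by
    intro hyL
    have := Lo_lt hc hS hPa hab hyL
    omega
  -- nothing in the component of `y` in `Z` is in `Lo S`
  have hCL : ∀ z, Conn G Z z y → z ∉ Lo G γ w D P Q S := fun z hz hzL => hyL (Lo_conn hzL (hz.mono hZL))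
  -- `x` is not in the component
  have hxC : ¬ Conn G Z x y := by
    intro hxy
    obtain ⟨x', y', h1, h2, h3, -, -⟩ := cross_gen (fun v => G.dist (γ 0) v)
      (fun u v huv => (dist_adj hc (γ 0) huv).2) hab hxy (by simp only [hx]; exact le_rfl)
      (by simp only [hy]; omega)
    refine hS.2 x' y' h1 h2 (h3.mono ?_)
    rintro v ⟨⟨⟨hv1, -⟩, hv2⟩, hv3⟩
    refine ⟨?_, hv2⟩
    rw [Finset.mem_coe, mem_sl] at hv1 ⊢
    exact ⟨hv1.1, hv3.1, hv3.2⟩
  -- the last edge into the component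
  obtain ⟨u, u', hu, hu', h1, h2, h3⟩ := h.exit (W := {z | ¬ Conn G Z z y}) hxC
    (by simp only [Set.mem_ofPred_eq, not_not]; exact Conn.refl hyZ)
  simp only [Set.mem_ofPred_eq, not_not] at h1 h2
  have huS : u ∈ S := by
    by_contra huS
    have huZ : u ∈ Z := ⟨hu.right_mem, by simpa using huS⟩
    exact h1 ((Conn.adj huZ h2.left_mem h3).trans h2)
  refine ⟨u, huS, ?_⟩
  by_contra hno
  push Not at hno
  have huF : u ∈ (((↑S : Set V) ∪ ↑(Lo G γ w D P Q S' \ (Lo G γ w D P Q S ∪ S)) ∪ ↑S') \ X) :=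
    ⟨Or.inl (Or.inl (by simpa using huS)), hu.right_mem.2⟩
  have hstep : ∀ p z, p ∈ Lo G γ w D P Q S' →
      Conn G (((↑S : Set V) ∪ ↑(Lo G γ w D P Q S' \ (Lo G γ w D P Q S ∪ S)) ∪ ↑S') \ X) u p → G.Adj p z →
      Conn G Z z y → z ∈ Lo G γ w D P Q S' ∧
      Conn G (((↑S : Set V) ∪ ↑(Lo G γ w D P Q S' \ (Lo G γ w D P Q S ∪ S)) ∪ ↑S') \ X) u z := by
    intro p z hp hup hpz hz
    have hzZ := hz.left_mem
    have hzS' : z ∉ S' := by
      intro hzS'
      exact hno z hzS' (hup.tail hpz ⟨Or.inr (by simpa using hzS'), hzZ.1.2⟩)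
    have hzL : z ∈ Lo G γ w D P Q S' := Lo_adj hp hpz (hZbig z hzZ) hzS'
    refine ⟨hzL, hup.tail hpz ⟨Or.inl (Or.inr ?_), hzZ.1.2⟩⟩
    simp only [Finset.coe_sdiff, Finset.coe_union, Set.mem_sdiff, Finset.mem_coe, Set.mem_union, not_or]
    exact ⟨hzL, hCL z hz, by simpa using hzZ.2⟩
  have key : ∀ z, Conn G Z u' z → z ∈ Lo G γ w D P Q S' ∧
      Conn G (((↑S : Set V) ∪ ↑(Lo G γ w D P Q S' \ (Lo G γ w D P Q S ∪ S)) ∪ ↑S') \ X) u z := by
    rintro z ⟨hz0, hz⟩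
    induction hz with
    | refl => exact hstep u u' (hsub huS) (Conn.refl huF) h3 h2
    | @tail p z hp hpz ih =>
      have hup : Conn G Z u' p := ⟨hz0, hp⟩
      exact hstep p z ih.1 ih.2 hpz.1 ((hup.tail hpz.1 hpz.2).symm.trans h2)
  have hyL' := (key y h2).1
  have := Lo_lt hc hS' (by omega) hab' hyL'
  omega

end

theorem mem_dropLast_of_tail_dropLast {V : Type*} {l : List V} {v : V} (h : v ∈ l.tail.dropLast) :
    v ∈ l.tail ∧ v ∈ l.dropLast := by
  refine ⟨List.mem_of_mem_dropLast h, ?_⟩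
  cases l with
  | nil => simp at h
  | cons c l =>
    cases l with
    | nil => simp at h
    | cons d l =>
      simp only [List.tail_cons] at h
      rw [List.dropLast_cons_cons]
      exact List.mem_cons_of_mem _ h

/-- **TB-LADEX, T part.** `S` and `S'` are minimal cuts of the slabs `[a, b]` and `[a', b']`. -/
theorem ladT (hN : NearStatement.{u}) {V : Type u} [Fintype V] {G : SimpleGraph V} {r w D : ℕ} {γ : ℕ → V}
    (hO : OneDim G r w D γ) {B q : ℕ} (hU : UCut G γ w D B q) {P Q a b a' b' : ℕ} {S S' : Finset V}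
    (hS : IsCut G γ w D a b S) (hS' : IsCut G γ w D a' b' S') (hSq : S.card = q)
    (hPa : P ≤ a) (hab : a ≤ b) (hba : b < a') (hab' : a' ≤ b') (hbQ : b' ≤ Q)
    (ha : 100 * w ≤ a) (hD : b' + 100 * w ≤ D)
    (hsub : S ⊆ Lo G γ w D P Q S') :
    ∃ T : V → List V,
      (∀ x ∈ S, IsP G (T x) ∧ (T x).head? = some x ∧ (∃ y ∈ S', (T x).getLast? = some y) ∧
        ∀ v ∈ (T x).tail.dropLast, v ∈ Lo G γ w D P Q S' \ (Lo G γ w D P Q S ∪ S)) ∧
      (∀ x ∈ S, ∀ x' ∈ S, x ≠ x' → List.Disjoint (T x) (T x')) ∧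
      ∀ t, b ≤ t → t ≤ a' → ∀ x ∈ S, ∀ x' ∈ S, ∃ y ∈ T x, ∃ y' ∈ T x',
        Conn G (↑(sl G γ w D (t - w) (t + w)) : Set V) y y' := by
  have hc : G.Connected := hO.vt.conn
  set F : Set V := (↑S : Set V) ∪ ↑(Lo G γ w D P Q S' \ (Lo G γ w D P Q S ∪ S)) ∪ ↑S' with hF
  obtain ⟨L, hL, hLd⟩ := menger G F (↑S) (↑S') q (by
    intro X hX
    by_contra hno
    push Not at hno
    have hcut : IsCut G γ w D a b' (X.filter (fun v => v ∈ sl G γ w D a b')) := by
      refine ⟨fun v hv => (Finset.mem_filter.1 hv).2, ?_⟩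
      intro x y hx hy h
      obtain ⟨u, hu, v, hv, huv⟩ := lad_sep (X := (↑X : Set V)) hc hS hS' hPa hab hba hab' hbQ hsub hx hy
        (h.mono (by
          rintro v ⟨hv1, hv2⟩
          refine ⟨hv1, fun hvX => hv2 ?_⟩
          simp only [Finset.coe_filter, Set.mem_ofPred_eq]
          exact ⟨by simpa using hvX, by simpa using hv1⟩))
      exact hno u (by simpa using hu) v (by simpa using hv) huv
    have h1 := hU.low a b' _ ha (by omega) hD hcut
    have h2 := Finset.card_filter_le X (fun v => v ∈ sl G γ w D a b')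
    omega)
  -- the heads
  choose hd hdS hhd using fun i => (hL i).2.2.1
  have hinj : Function.Injective hd := by
    intro i j hij
    by_contra hne
    exact hLd i j hne (List.mem_of_mem_head? (hhd i)) (hij ▸ List.mem_of_mem_head? (hhd j))
  have himg : Finset.univ.image hd = S := by
    refine Finset.eq_of_subset_of_card_le ?_ ?_
    · intro v hv
      obtain ⟨i, -, rfl⟩ := Finset.mem_image.1 hv
      simpa using hdS i
    · rw [Finset.card_image_of_injective _ hinj]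
      simp [hSq]
  have hsurj : ∀ x, ∃ i : Option (Fin q), x ∈ S → ∃ j, i = some j ∧ hd j = x := by
    intro x
    by_cases hx : x ∈ S
    · rw [← himg] at hx
      obtain ⟨i, -, hi⟩ := Finset.mem_image.1 hx
      exact ⟨some i, fun _ => ⟨i, rfl, hi⟩⟩
    · exact ⟨none, fun h => absurd h hx⟩
  choose ix hix using hsurj
  refine ⟨fun x => match ix x with
    | some i => L i
    | none => [], ?_, ?_, ?_⟩
  · intro x hx
    obtain ⟨i, hi, hix'⟩ := hix x hx
    simp only [hi]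
    obtain ⟨h1, h2, -, h4, h5, h6⟩ := hL i
    refine ⟨h1, by rw [hhd i, hix'], ?_, ?_⟩
    · obtain ⟨y, hy, hy'⟩ := h4
      exact ⟨y, by simpa using hy, hy'⟩
    · intro v hv
      obtain ⟨hv1, hv2⟩ := mem_dropLast_of_tail_dropLast hv
      rcases h2 v (List.mem_of_mem_tail hv1) with (h | h) | h
      · exact absurd h (h5 v hv1)
      · simpa using h
      · exact absurd h (h6 v hv2)
  · intro x hx x' hx' hne
    obtain ⟨i, hi, hix1⟩ := hix x hx
    obtain ⟨j, hj, hix2⟩ := hix x' hx'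
    simp only [hi, hj]
    refine hLd i j ?_
    rintro rfl
    exact hne (hix1.symm.trans hix2)
  · intro t hbt hta x hx x' hx'
    obtain ⟨i, hi, hix1⟩ := hix x hx
    obtain ⟨j, hj, hix2⟩ := hix x' hx'
    simp only [hi, hj]
    have hFom : ∀ v ∈ F, v ∈ om G γ w D := by
      intro v hv
      rcases hv with (hv | hv) | hv
      · exact (mem_sl.1 (hS.1 (by simpa using hv))).1
      · simp only [Finset.coe_sdiff, Set.mem_sdiff, Finset.mem_coe] at hv
        exact (mem_sl.1 (Lo_sub hv.1)).1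
      · exact (mem_sl.1 (hS'.1 (by simpa using hv))).1
    have hex : ∀ i, ∃ y ∈ L i, y ∈ sl G γ w D t t := by
      intro i
      obtain ⟨h1, h2, -, h4, h5, h6⟩ := hL i
      obtain ⟨y, hy, hy'⟩ := h4
      have hpb : IsPB G (L i) (hd i) y := ⟨h1, hhd i, hy'⟩
      have hcn : Conn G {v | v ∈ L i} (hd i) y := hpb.conn (fun v hv => hv)
      have hh1 : G.dist (γ 0) (hd i) ≤ t := by
        have := (mem_sl.1 (hS.1 (by simpa using hdS i))).2.2
        omega
      have hh2 : t ≤ G.dist (γ 0) y := by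
        have := (mem_sl.1 (hS'.1 (by simpa using hy))).2.1
        omega
      obtain ⟨x', y', e1, e2, e3, e4, e5⟩ := cross_gen (fun v => G.dist (γ 0) v)
        (fun u v huv => (dist_adj hc (γ 0) huv).2) (le_refl t) hcn hh1 hh2
      have hx'L : x' ∈ L i := e4.right_mem
      refine ⟨x', hx'L, mem_sl.2 ⟨hFom x' (h2 x' hx'L), ?_, ?_⟩⟩
      · omega
      · omega
    obtain ⟨y, hy, hyt⟩ := hex i
    obtain ⟨y', hy', hyt'⟩ := hex j
    obtain ⟨-, -, -, -, -, hN6, -⟩ := hN V G r w D γ hO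
    exact ⟨y, hy, y', hy', hN6 t t y hyt y' hyt'⟩

end Pool.Agent.Lib.MP_688fd0_co.ASY.H61
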